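import Pool.Agent.SPT.Main

/-!
# Blow-ups of towers of projective bundles have regular unimodular triangulations

Let `Q ⊆ ℝ^ν` be a convex set (for instance a smooth polytope) with a regular unimodular triangulation. The polytope
of a tower of projective bundles over `Q` has additional coordinates `z i` (`i ∈ ι`), each belonging to a storey
`lev i`; the fibre of the storey `k` is the simplex `{z i ≥ 0 (lev i = k), ∑_{lev i = k} z i ≤ L k}`, where the height
`L k` is an integral affine function of the point of `Q` and of the coordinates of the lower storeys. If `Q` is a point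
these are the polytopes of the generalised Bott manifolds.

The polytopes of the blow-ups of such a tower along torus invariant submanifolds (given by `z i = 0` for `i ∈ J s`,
`s ∈ S`, where different `J s` use different storeys) are obtained by adding the inequalities `∑_{i ∈ J s} z i ≥ μ s`,
where `μ s ≥ 0` is an integral affine function on `Q` (a constant if `Q` is a point). `part l` is the blown up tower of
the storeys below `l`, with the inequalities for those `J s` which consist of coordinates of these storeys. We need
that `L k ≥ 0` on `part k` (`h0`) and, if the storey `k` meets `J s`, that the inequality for `s` does not cut off the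
whole fibre of the storey `k` over any point of `part k` (`hup`). For the polytopes with the normal fan of the blow-up
this is true for all vertices of `part k`, because each of them is the projection of a vertex of the polytope at which
`∑_{i ∈ J s} z i = ∑_{i ∈ J s, lev i < k} z i + L k`; so it holds on `part k`. All these polytopes have regular
unimodular triangulations.

Idea. The tower is an iterated chimney; the heights in the direction of a new coordinate are `τ² + δ τ`, where `τ` is
the value of `∑_{i ∈ J s} z i - μ s` if the new coordinate belongs to `J s`. Then this function does not change its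
sign on any lower face: the triangulation is compatible with all the cuts.
-/

open Finset

set_option autoImplicit false

namespace Pool.Agent.Results.MP_5fef9b_co.BlownUpTowers

open Pool.Agent.SPB Pool.Agent.SPP Pool.Agent.SPT

open Classical in
/-- The blown up tower over `Q` with the coordinates `z i` (`i ∈ ι`) of the storeys `lev i` and the heights
`ev (c k) (b k)`. -/
def tower {ν ι S : Type} [Fintype ν] [Fintype ι] (Q : Set (ν → ℝ)) (lev : ι → ℕ) (c : ℕ → ν ⊕ ι → ℤ) (b : ℕ → ℤ)
    (J : S → Finset ι) (m : S → ν → ℤ) (m0 : S → ℤ) : Set (ν ⊕ ι → ℝ) :=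
  {z | (fun j => z (Sum.inl j)) ∈ Q ∧ (∀ i, 0 ≤ z (Sum.inr i)) ∧
    (∀ i, ∑ j with lev j = lev i, z (Sum.inr j) ≤ ev (c (lev i)) (b (lev i)) z) ∧
    ∀ s, ev (m s) (m0 s) (fun j => z (Sum.inl j)) ≤ ∑ j ∈ J s, z (Sum.inr j)}

/-- blow-ups of towers of projective bundles have regular unimodular triangulations -/
theorem result {ν ι S : Type} [Fintype ν] [Fintype ι] {Q : Set (ν → ℝ)} (hQ : Convex ℝ Q) (hT : HasRUT Q)
    (lev : ι → ℕ) (c : ℕ → ν ⊕ ι → ℤ) (b : ℕ → ℤ) (hc : ∀ i k, k ≤ lev i → c k (Sum.inr i) = 0)
    (J : S → Finset ι) (hJ : ∀ s t, ∀ i ∈ J s, ∀ j ∈ J t, lev i = lev j → s = t)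
    (m : S → ν → ℤ) (m0 : S → ℤ) (hm : ∀ s, ∀ q ∈ Q, 0 ≤ ev (m s) (m0 s) q)
    (h0 : ∀ i, ∀ z ∈ part Q lev c b J m m0 (lev i), 0 ≤ ev (c (lev i)) (b (lev i)) z)
    (hup : ∀ s, ∀ i ∈ J s, ∀ z ∈ part Q lev c b J m m0 (lev i),
      ev (m s) (m0 s) (fun j => z (Sum.inl j)) ≤ ∑ j ∈ J s, z (Sum.inr j) + ev (c (lev i)) (b (lev i)) z) :
    HasRUT (tower Q lev c b J m m0) := by
  classical
  have h := main hQ hT lev c b hc J hJ m m0 hm h0 hup (univ.sup lev + 1)
  have hl : ∀ i, lev i < univ.sup lev + 1 := fun i => Nat.lt_succ_of_le (Finset.le_sup (Finset.mem_univ i))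
  have e : tower Q lev c b J m m0 = part Q lev c b J m m0 (univ.sup lev + 1) := by
    ext z
    constructor
    · rintro ⟨h1, h2, h3, h4⟩
      exact ⟨h1, h2, fun i hi => absurd (hl i) (by omega), fun i _ => h3 i, fun s _ => h4 s⟩
    · rintro ⟨h1, h2, -, h3, h4⟩
      exact ⟨h1, h2, fun i => h3 i (hl i), fun s => h4 s fun i _ => hl i⟩
  rw [e]
  exact h

end Pool.Agent.Results.MP_5fef9b_co.BlownUpTowers
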