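import Pool.Agent.SPR.Peel

/-!
# Lattice 3-polytopes which can be peeled along smooth facets have regular unimodular triangulations

`Pee` is the class of the lattice polytopes `P ⊆ ℝ³` which can be reduced to a lattice polytope contained in a plane by
repeatedly cutting off the layer of lattice width one next to a facet, such that in every step the polytope is smooth at
the vertices of this facet (no condition at the other vertices): `P` is in the class if it is contained in a plane, or
if for some facet, defined by the primitive integer functional `u` with minimum `c` on `P`, the polytope `P` is smooth at
the vertices with `u · y = c` and the polytope `{y ∈ P | c + 1 ≤ u · y}` is in the class. Every full-dimensional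
polytope of the class has a regular unimodular triangulation.
-/

set_option autoImplicit false

namespace Pool.Agent.Results.MP_5fef9b_co.FacetPeeling

open Pool.Agent.SPB Pool.Agent.SPK Pool.Agent.SPR

/-- every full-dimensional polytope of the class `Pee` has a regular unimodular triangulation -/
theorem result {P : Set (Fin 3 → ℝ)} (h : Pee P) (hi : (interior P).Nonempty) : HasRUT P := pee h hi

end Pool.Agent.Results.MP_5fef9b_co.FacetPeeling
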