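import Pool.Agent.SPP.Asm
import Pool.Agent.SPP.Ext

/-!
# Smooth polytopes with at most `d + 3` facets have regular unimodular triangulations

Every smooth lattice polytope `P ⊆ ℝ^d` which is the intersection of at most `d + 3` half spaces (for instance: which
has at most `d + 3` facets; the Picard number of its toric variety is then at most three) has a regular unimodular
triangulation, in every dimension `d`.

Idea. Among the nonnegative relations between the facet normals one of minimal weight is of the form
`∑_{i ∈ C} a_i = 0` with `C` a minimal nonface. So `P` lies over a dilated simplex; the same argument for a fibre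
gives the normal form `{y ≥ 0, ∑_S y ≤ α, ∑_W y ≤ λ(y_S), ∑ m_i y_i ≤ μ}`. If the last function is nonnegative on the
part where the first two hold, `P` is an iterated chimney. Otherwise smoothness at the points where two of the
functions vanish forces `m` to be an indicator function on `W` and `μ - λ = ψ ∓ ∑_{S₁} y` with `S₁ ⊆ S`; a triangulation
of the simplex refining the hyperplanes `∑_{S₁} y = const` carries over to chimneys of height `min (λ, μ)`.
-/

open Finset

set_option autoImplicit false

namespace Pool.Agent.Results.MP_5fef9b_co.FewFacets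

open Pool.Agent.SPB Pool.Agent.SPP

/-- a smooth polytope in `ℝ^d` which is the intersection of at most `d + 3` half spaces has a regular unimodular
triangulation -/
theorem result (d N : ℕ) (hN : N ≤ d + 3) {P : Set (Fin d → ℝ)} (hP : IsSmooth P) (A : Fin N → Fin d → ℝ)
    (b : Fin N → ℝ) (hA : P = {x | ∀ j, ∑ i, A j i * x i ≤ b j}) : HasRUT P := by
  have hA' : P = {x | ∀ j : Fin (d + 3), ∑ i, (if h : (j : ℕ) < N then A ⟨j, h⟩ else 0) i * x i ≤
      if h : (j : ℕ) < N then b ⟨j, h⟩ else 0} := by
    rw [hA]
    ext x
    constructor
    · intro hx j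
      by_cases hj : (j : ℕ) < N
      · simp only [hj, dif_pos]
        exact hx ⟨j, hj⟩
      · simp [hj]
    · intro hx j
      have h1 := hx ⟨j, by omega⟩
      simp only [j.2, dif_pos] at h1
      exact h1
  obtain ⟨a, h, hPa, hT⟩ := extract hP _ _ hA'
  obtain ⟨⟨A₀, hA₀, e⟩, -⟩ := hP
  have hK : IsCompact (pol a h) := by
    rw [← hPa, e]
    exact hull_isCompact A₀
  have hne : (pol a h).Nonempty := by
    rw [← hPa, e]
    obtain ⟨p, hp⟩ := hA₀
    exact ⟨emb p, subset_convexHull ℝ _ ⟨p, hp, rfl⟩⟩
  rw [hPa]
  exact sys_rut (by simp) hK hne hT

end Pool.Agent.Results.MP_5fef9b_co.FewFacets
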