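import Pool.Agent.SPB.Tow

/-!
# Smooth polytopes of towers of toric bundles over toric surfaces have regular unimodular triangulations

Let `F` be the set of rays of a smooth complete fan in `ℤ²`, `Q` a smooth polytope with a regular unimodular
triangulation and `h_v(q) = H v · q + c v` (`v ∈ F`) integral affine functions such that for every lattice point `q`
of `Q` the polygon `{x | v · x ≤ h_v(q) for v ∈ F}` is smooth with normal fan `F`. Then
`{(x, q) | q ∈ Q, v · x ≤ h_v(q) for v ∈ F}` is a smooth polytope and has a regular unimodular triangulation.
These are the polytopes of the toric bundles over the toric surface of `F` (all Cayley polytopes of smooth polygons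
with the same normal fan, for `Q` a standard simplex). `Tow` is the class generated from dilated simplices by this
construction and the analogous construction over the projective line.
-/

set_option autoImplicit false

namespace Pool.Agent.Results.MP_5fef9b_co.SurfaceBundleTowers

open Pool.Agent.SPB

/-- every polytope of the class `Tow` is smooth and has a regular unimodular triangulation -/
theorem result {k : ℕ} {P : Set (Fin k → ℝ)} (h : Tow k P) : IsSmooth P ∧ HasRUT P := tow h

end Pool.Agent.Results.MP_5fef9b_co.SurfaceBundleTowers
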